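import Pool.Agent.Y160.SE.Stmts
import Pool.Agent.Y160.SE.Basic

/-!
# Superelliptic curves: the primes of the coordinate ring and the norm of an ideal
-/

set_option autoImplicit false
set_option linter.all false

open Polynomial
open scoped nonZeroDivisors

namespace Pool.Agent.Y317.SE

open Pool.Agent.Y160.SE

universe u

section aux

/-- Evaluate `X ^ n - C a = ∏ (X - C (ζ ^ i * α))`. -/
theorem pow_sub_prod {R : Type u} [CommRing R] [IsDomain R] {n : ℕ} {ζ : R}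
    (hζ : IsPrimitiveRoot ζ n) (hn : 0 < n) (x y : R) :
    x ^ n - y ^ n = ∏ i ∈ Finset.range n, (x - ζ ^ i * y) := by
  have h := congrArg (Polynomial.eval x) (X_pow_sub_C_eq_prod hζ hn (rfl : y ^ n = y ^ n))
  rw [eval_sub, eval_pow, eval_X, eval_C, eval_prod] at h
  rw [h]
  apply Finset.prod_congr rfl
  intro i _
  rw [eval_sub, eval_X, eval_C]

theorem sup_pow_le {R : Type u} [CommRing R] (I J : Ideal R) (n : ℕ) :
    (I ⊔ J) ^ n ≤ I ⊔ J ^ n := by
  induction n with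
  | zero => simp
  | succ n ih =>
    rw [pow_succ, pow_succ]
    refine le_trans (Ideal.mul_mono_left ih) ?_
    rw [Ideal.sup_mul, Ideal.mul_sup, Ideal.mul_sup]
    refine sup_le (sup_le ?_ ?_) (sup_le ?_ ?_)
    · exact le_trans Ideal.mul_le_left le_sup_left
    · exact le_trans Ideal.mul_le_left le_sup_left
    · exact le_trans Ideal.mul_le_right le_sup_left
    · exact le_sup_right

theorem prod_span_pair_le {R : Type u} [CommRing R] {ι : Type} (s : Finset ι) (a : R) (b : ι → R) :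
    ∏ i ∈ s, Ideal.span {a, b i} ≤ Ideal.span {a, ∏ i ∈ s, b i} := by
  classical
  induction s using Finset.induction_on with
  | empty =>
    rw [Finset.prod_empty, Finset.prod_empty]
    have : (1 : R) ∈ Ideal.span {a, (1 : R)} := Ideal.subset_span (by simp)
    rw [(Ideal.eq_top_iff_one _).2 this]
    exact le_top
  | insert j s hj ih =>
    rw [Finset.prod_insert hj, Finset.prod_insert hj]
    refine le_trans (Ideal.mul_mono_right ih) ?_
    rw [Ideal.span_pair_mul_span_pair, Ideal.span_le]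
    rintro x (rfl | rfl | rfl | rfl)
    · exact Ideal.mem_span_pair.2 ⟨a, 0, by ring⟩
    · exact Ideal.mem_span_pair.2 ⟨∏ i ∈ s, b i, 0, by ring⟩
    · exact Ideal.mem_span_pair.2 ⟨b j, 0, by ring⟩
    · exact Ideal.mem_span_pair.2 ⟨0, 1, by ring⟩

end aux

section ring

variable {ℓ : ℕ} {E : Type u} [Field E] {ζ : E} {f : E[X]}

/-- Division by `y - c`. -/
theorem cr_div (x : CR ℓ f) (c : E[X]) :
    ∃ (q : E[X]) (z : CR ℓ f), x = xp ℓ f q + (yy ℓ f - xp ℓ f c) * z := by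
  obtain ⟨F, rfl⟩ := cr_mem x
  obtain ⟨G, hG⟩ := X_sub_C_dvd_sub_C_eval (a := c) (p := F)
  refine ⟨F.eval c, AdjoinRoot.mk _ G, ?_⟩
  have h1 : F = C (F.eval c) + (X - C c) * G := by rw [← hG]; ring
  conv_lhs => rw [h1, map_add, map_mul, map_sub]
  rfl

variable [IsDomain (CR ℓ f)]

/-- The monic irreducible polynomial under a prime. -/
theorem exists_under (hℓ : ℓ ≠ 0) (P : Ideal (CR ℓ f)) (hP : P.IsPrime) (h0 : P ≠ ⊥) :
    ∃ p : E[X], Irreducible p ∧ p.Monic ∧ ∀ q : E[X], xp ℓ f q ∈ P ↔ p ∣ q := by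
  classical
  haveI : Module.Finite E[X] (CR ℓ f) := (monic_cr (f := f) hℓ).finite_adjoinRoot
  haveI : Algebra.IsIntegral E[X] (CR ℓ f) := inferInstance
  have h1 : P.comap (algebraMap E[X] (CR ℓ f)) ≠ ⊥ := fun h => h0 (Ideal.eq_bot_of_comap_eq_bot h)
  haveI h2 : (P.comap (algebraMap E[X] (CR ℓ f))).IsPrime := Ideal.comap_isPrime _ _
  obtain ⟨g, hg⟩ := (IsPrincipalIdealRing.principal (P.comap (algebraMap E[X] (CR ℓ f)))).principal
  have hg' : P.comap (algebraMap E[X] (CR ℓ f)) = Ideal.span {g} := hg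
  have hg0 : g ≠ 0 := by
    rintro rfl
    apply h1
    rw [hg']
    simp
  have hgp : Prime g := by
    rw [← Ideal.span_singleton_prime hg0, ← hg']
    exact h2
  refine ⟨normalize g, ?_, Polynomial.monic_normalize hg0, ?_⟩
  · exact (associated_normalize g).irreducible hgp.irreducible
  · intro q
    rw [normalize_dvd_iff, ← Ideal.mem_span_singleton, ← hg']
    exact Iff.rfl

end ring

section good

variable {ℓ : ℕ} {E : Type u} [Field E] {ζ : E} {f : E[X]}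

theorem isUnit_zeta_sub (hg : Good ℓ ζ f) {i j : ℕ} (hi : i < ℓ) (hj : j < ℓ) (hij : i ≠ j) :
    ζ ^ i - ζ ^ j ≠ 0 := by
  intro h
  exact hij (hg.root.pow_inj hi hj (sub_eq_zero.1 h))

theorem map_tw_pow_xp (hg : Good ℓ ζ f) (i : ℕ) (p : E[X]) :
    (hg.tw ^ i) (xp ℓ f p) = xp ℓ f p := by
  rw [Good.tw, tw_pow _ i (by rw [← pow_mul, mul_comm, pow_mul, hg.root.pow_eq_one, one_pow]), tw_xp]

theorem map_tw_pow_yy (hg : Good ℓ ζ f) (i : ℕ) :
    (hg.tw ^ i) (yy ℓ f) = xp ℓ f (C (ζ ^ i)) * yy ℓ f := by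
  rw [Good.tw, tw_pow _ i (by rw [← pow_mul, mul_comm, pow_mul, hg.root.pow_eq_one, one_pow]), tw_yy]

theorem xp_isUnit_C {c : E} (hc : c ≠ 0) : IsUnit (xp ℓ f (C c)) :=
  (Polynomial.isUnit_C.2 (isUnit_iff_ne_zero.2 hc)).map (AdjoinRoot.of (X ^ ℓ - C f : E[X][X]))

/-- The primes dividing `f`. -/
theorem case_C (hg : Good ℓ ζ f) {p : E[X]} (hp : Irreducible p) (hpf : p ∣ f) (P : Ideal (CR ℓ f))
    (hP : P.IsPrime) (h : ∀ q : E[X], xp ℓ f q ∈ P ↔ p ∣ q) :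
    P = Ideal.span {xp ℓ f p, yy ℓ f} ∧ P ^ ℓ = Ideal.span {xp ℓ f p} := by
  have hy : yy ℓ f ∈ P := by
    apply hP.mem_of_pow_mem ℓ
    rw [yy_pow]
    exact (h f).2 hpf
  have hPe : P = Ideal.span {xp ℓ f p, yy ℓ f} := by
    apply le_antisymm
    · intro x hx
      obtain ⟨q, z, rfl⟩ := cr_div x (0 : E[X])
      rw [xp_zero, sub_zero] at hx ⊢
      have h1 : xp ℓ f q ∈ P := (Ideal.add_mem_iff_left _ (P.mul_mem_right z hy)).1 hx
      obtain ⟨r, hr⟩ := (h q).1 h1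
      rw [Ideal.mem_span_pair]
      refine ⟨xp ℓ f r, z, ?_⟩
      rw [hr, xp_mul]
      ring
    · rw [Ideal.span_le]
      rintro x (rfl | rfl)
      · exact (h p).2 dvd_rfl
      · exact hy
  refine ⟨hPe, ?_⟩
  have hℓ : ℓ ≠ 0 := hg.prime.ne_zero
  obtain ⟨k, hk⟩ := hpf
  have hcop : IsCoprime p k := by
    apply Separable.isCoprime
    rw [← hk]
    exact hg.sep
  apply le_antisymm
  · rw [hPe, Ideal.span_insert]
    refine le_trans (sup_pow_le _ _ ℓ) ?_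
    rw [Ideal.span_singleton_pow, yy_pow]
    apply sup_le le_rfl
    rw [Ideal.span_singleton_le_span_singleton, hk, xp_mul]
    exact dvd_mul_right _ _
  · rw [Ideal.span_singleton_le_iff_mem]
    have h1 : IsCoprime (p ^ (ℓ - 1)) k := hcop.pow_left
    obtain ⟨a, b, hab⟩ := h1
    have h2 : xp ℓ f p ^ ℓ ∈ P ^ ℓ := Ideal.pow_mem_pow ((h p).2 dvd_rfl) ℓ
    have h3 : yy ℓ f ^ ℓ ∈ P ^ ℓ := Ideal.pow_mem_pow hy ℓ
    have h4 : xp ℓ f p = xp ℓ f a * xp ℓ f p ^ ℓ + xp ℓ f b * yy ℓ f ^ ℓ := by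
      rw [yy_pow, ← xp_pow, ← xp_mul, ← xp_mul, ← xp_add]
      congr 1
      obtain ⟨m, hm⟩ := Nat.exists_eq_succ_of_ne_zero hℓ
      subst hm
      rw [Nat.succ_sub_one] at hab
      have e1 : p ^ (m.succ) = p ^ m * p := pow_succ p m
      have e2 : p = p * 1 := (mul_one p).symm
      calc p = p * (a * p ^ m + b * k) := by rw [hab, mul_one]
        _ = a * p ^ m.succ + b * (p * k) := by rw [e1]; ring
        _ = a * p ^ m.succ + b * f := by rw [← hk]
    rw [h4]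
    exact Ideal.add_mem _ (Ideal.mul_mem_left _ _ h2) (Ideal.mul_mem_left _ _ h3)

variable [IsDomain (CR ℓ f)]

theorem xp_root (hg : Good ℓ ζ f) : IsPrimitiveRoot (xp ℓ f (C ζ)) ℓ := by
  have h1 : Function.Injective ((AdjoinRoot.of (X ^ ℓ - C f : E[X][X])).comp (C : E →+* E[X])) := by
    intro a b hab
    exact C_injective (xp_inj hg.prime.ne_zero hab)
  exact hg.root.map_of_injective h1

/-- The primes over which `f` is an `ℓ`-th power. -/
theorem case_B (hg : Good ℓ ζ f) {p : E[X]} (hp : Irreducible p) (hpf : ¬ p ∣ f) (P : Ideal (CR ℓ f))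
    (hP : P.IsPrime) (h : ∀ q : E[X], xp ℓ f q ∈ P ↔ p ∣ q) {c : E[X]} (hc : p ∣ f - c ^ ℓ) :
    ∃ c : E[X], p ∣ f - c ^ ℓ ∧ P = Ideal.span {xp ℓ f p, yy ℓ f - xp ℓ f c} ∧
        ∏ i ∈ Finset.range ℓ, P.map (hg.tw ^ i) = Ideal.span {xp ℓ f p} := by
  have hpos : 0 < ℓ := hg.prime.pos
  -- choose `c`
  have h1 : yy ℓ f ^ ℓ - xp ℓ f c ^ ℓ ∈ P := by
    rw [yy_pow, ← xp_pow, ← xp_sub]
    exact (h _).2 hc
  rw [pow_sub_prod (xp_root hg) hpos, hP.prod_mem_iff] at h1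
  obtain ⟨i, hi, h2⟩ := h1
  have hζi : (ζ ^ i) ^ ℓ = 1 := by
    rw [← pow_mul, mul_comm, pow_mul, hg.root.pow_eq_one, one_pow]
  obtain ⟨d, hd⟩ : ∃ d : E[X], d = C (ζ ^ i) * c := ⟨_, rfl⟩
  have hdℓ : p ∣ f - d ^ ℓ := by
    rw [hd, mul_pow, ← C_pow, hζi, C_1, one_mul]
    exact hc
  have h3 : yy ℓ f - xp ℓ f d ∈ P := by
    rw [hd, xp_mul, C_pow, xp_pow]
    exact h2
  have hPe : P = Ideal.span {xp ℓ f p, yy ℓ f - xp ℓ f d} := by
    apply le_antisymm
    · intro x hx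
      obtain ⟨q, z, rfl⟩ := cr_div x d
      have h1 : xp ℓ f q ∈ P := (Ideal.add_mem_iff_left _ (P.mul_mem_right z h3)).1 hx
      obtain ⟨r, hr⟩ := (h q).1 h1
      rw [Ideal.mem_span_pair]
      refine ⟨xp ℓ f r, z, ?_⟩
      rw [hr, xp_mul]
      ring
    · rw [Ideal.span_le]
      rintro x (rfl | rfl)
      · exact (h p).2 dvd_rfl
      · exact h3
  refine ⟨d, hdℓ, hPe, ?_⟩
  have hmap : ∀ i : ℕ, P.map (hg.tw ^ i) =
      Ideal.span {xp ℓ f p, xp ℓ f d - xp ℓ f (C ζ) ^ i * yy ℓ f} := by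
    intro i
    have e1 : P = Ideal.span {xp ℓ f p, xp ℓ f d - yy ℓ f} := by
      rw [hPe, Ideal.span_insert, Ideal.span_insert]
      have e2 : xp ℓ f d - yy ℓ f = -(yy ℓ f - xp ℓ f d) := by ring
      rw [e2, Ideal.span_singleton_neg]
    rw [e1, Ideal.map_span, Set.image_pair, map_tw_pow_xp, map_sub, map_tw_pow_xp, map_tw_pow_yy,
      C_pow, xp_pow]
  apply le_antisymm
  · rw [Finset.prod_congr rfl (fun i _ => hmap i)]
    refine le_trans (prod_span_pair_le _ _ _) ?_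
    rw [← pow_sub_prod (xp_root hg) hpos, yy_pow, ← xp_pow, ← xp_sub, Ideal.span_le]
    rintro x (rfl | rfl)
    · exact Ideal.subset_span rfl
    · rw [SetLike.mem_coe, Ideal.mem_span_singleton]
      obtain ⟨r, hr⟩ := hdℓ
      have : d ^ ℓ - f = p * (-r) := by linear_combination -hr
      rw [this, xp_mul]
      exact dvd_mul_right _ _
  · rw [Ideal.prod_eq_iInf_of_pairwise_isCoprime]
    · rw [le_iInf₂_iff]
      intro i _
      rw [hmap i, Ideal.span_singleton_le_iff_mem]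
      exact Ideal.subset_span (by simp)
    · intro i hi j hj hij
      rw [Finset.coe_range, Set.mem_Iio] at hi hj
      show IsCoprime (P.map (hg.tw ^ i)) (P.map (hg.tw ^ j))
      rw [Ideal.isCoprime_iff_sup_eq]
      obtain ⟨M, hM⟩ : ∃ M : Ideal (CR ℓ f), M = P.map (hg.tw ^ i) ⊔ P.map (hg.tw ^ j) := ⟨_, rfl⟩
      rw [← hM]
      have m1 : xp ℓ f p ∈ M := by
        rw [hM]
        apply Ideal.mem_sup_left
        rw [hmap i]
        exact Ideal.subset_span (by simp)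
      have m2 : xp ℓ f d - xp ℓ f (C ζ) ^ i * yy ℓ f ∈ M := by
        rw [hM]
        apply Ideal.mem_sup_left
        rw [hmap i]
        exact Ideal.subset_span (by simp)
      have m3 : xp ℓ f d - xp ℓ f (C ζ) ^ j * yy ℓ f ∈ M := by
        rw [hM]
        apply Ideal.mem_sup_right
        rw [hmap j]
        exact Ideal.subset_span (by simp)
      have m4 : xp ℓ f (C (ζ ^ i - ζ ^ j)) * yy ℓ f ∈ M := by
        have e : xp ℓ f (C (ζ ^ i - ζ ^ j)) * yy ℓ f =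
            (xp ℓ f d - xp ℓ f (C ζ) ^ j * yy ℓ f) - (xp ℓ f d - xp ℓ f (C ζ) ^ i * yy ℓ f) := by
          rw [C_sub, xp_sub, C_pow, C_pow, xp_pow, xp_pow]
          ring
        rw [e]
        exact M.sub_mem m3 m2
      have m5 : yy ℓ f ∈ M :=
        (Ideal.unit_mul_mem_iff_mem M (xp_isUnit_C (isUnit_zeta_sub hg hi hj hij))).1 m4
      have m6 : xp ℓ f f ∈ M := by
        rw [← yy_pow]
        exact M.pow_mem_of_mem m5 ℓ hpos
      obtain ⟨a, b, hab⟩ := (hp.coprime_iff_not_dvd).2 hpf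
      rw [Ideal.eq_top_iff_one]
      have e : (1 : CR ℓ f) = xp ℓ f a * xp ℓ f p + xp ℓ f b * xp ℓ f f := by
        rw [← xp_mul, ← xp_mul, ← xp_add, hab, xp_one]
      rw [e]
      exact M.add_mem (M.mul_mem_left _ m1) (M.mul_mem_left _ m6)

omit [IsDomain (CR ℓ f)] in
/-- The inert primes. -/
theorem case_A (hg : Good ℓ ζ f) {p : E[X]} (hp : Irreducible p) (P : Ideal (CR ℓ f))
    (hP : P.IsPrime) (h : ∀ q : E[X], xp ℓ f q ∈ P ↔ p ∣ q) (hc : ∀ c : E[X], ¬ p ∣ f - c ^ ℓ) :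
    P = Ideal.span {xp ℓ f p} := by
  apply le_antisymm
  swap
  · rw [Ideal.span_singleton_le_iff_mem]
    exact (h p).2 dvd_rfl
  haveI : Fact (Irreducible p) := ⟨hp⟩
  obtain ⟨ψ, hψ⟩ : ∃ ψ : E[X][X] →+* (AdjoinRoot p)[X], ψ = mapRingHom (AdjoinRoot.mk p) :=
    ⟨_, rfl⟩
  have hψs : Function.Surjective ψ := by
    rw [hψ]
    exact Polynomial.map_surjective _ AdjoinRoot.mk_surjective
  have hψk : ∀ G : E[X][X], ψ G = 0 → ∃ K, G = C p * K := by
    intro G hG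
    have : C p ∣ G := by
      rw [C_dvd_iff_dvd_coeff]
      intro i
      have h1 := congrArg (fun q : (AdjoinRoot p)[X] => q.coeff i) hG
      simp only [hψ, coe_mapRingHom, coeff_map, coeff_zero] at h1
      exact AdjoinRoot.mk_eq_zero.1 h1
    exact this
  obtain ⟨F, hF⟩ : ∃ F : (AdjoinRoot p)[X], F = X ^ ℓ - C (AdjoinRoot.mk p f) := ⟨_, rfl⟩
  have hψF : ψ (X ^ ℓ - C f) = F := by
    rw [hψ, hF, coe_mapRingHom, Polynomial.map_sub, Polynomial.map_pow, map_X, map_C]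
  have hFi : Irreducible F := by
    rw [hF]
    apply X_pow_sub_C_irreducible_of_prime hg.prime
    intro b hb
    obtain ⟨c, rfl⟩ := AdjoinRoot.mk_surjective b
    apply hc c
    rw [← AdjoinRoot.mk_eq_mk, ← hb, map_pow]
  obtain ⟨P', hP'⟩ : ∃ P' : Ideal E[X][X], P' = P.comap (AdjoinRoot.mk (X ^ ℓ - C f : E[X][X])) :=
    ⟨_, rfl⟩
  have hP'1 : (X ^ ℓ - C f : E[X][X]) ∈ P' := by
    rw [hP', Ideal.mem_comap, AdjoinRoot.mk_self]
    exact P.zero_mem
  have hP'2 : C p ∈ P' := by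
    rw [hP', Ideal.mem_comap]
    exact (h p).2 dvd_rfl
  have hP'3 : (1 : E[X][X]) ∉ P' := by
    rw [hP', Ideal.mem_comap, map_one]
    exact fun h => hP.ne_top ((Ideal.eq_top_iff_one _).2 h)
  have hQ1 : (P'.map ψ) ≠ ⊤ := by
    intro h1
    have h2 : (1 : (AdjoinRoot p)[X]) ∈ P'.map ψ := by rw [h1]; trivial
    rw [Ideal.mem_map_iff_of_surjective ψ hψs] at h2
    obtain ⟨G, hG, hG1⟩ := h2
    obtain ⟨K, hK⟩ := hψk (1 - G) (by rw [map_sub, map_one, hG1, sub_self])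
    apply hP'3
    have e : (1 : E[X][X]) = G + K * C p := by linear_combination hK
    rw [e]
    exact P'.add_mem hG (P'.mul_mem_left K hP'2)
  have hFm : (Ideal.span {F}).IsMaximal := by
    exact PrincipalIdealRing.isMaximal_of_irreducible hFi
  have hQ : Ideal.span {F} = P'.map ψ := by
    apply hFm.eq_of_le hQ1
    rw [Ideal.span_singleton_le_iff_mem, ← hψF]
    exact Ideal.mem_map_of_mem ψ hP'1
  intro x hx
  obtain ⟨G, rfl⟩ := cr_mem x
  have hG : G ∈ P' := by rw [hP']; exact hx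
  have h1 : ψ G ∈ Ideal.span {F} := by rw [hQ]; exact Ideal.mem_map_of_mem ψ hG
  obtain ⟨H, hH⟩ := Ideal.mem_span_singleton.1 h1
  obtain ⟨H', rfl⟩ := hψs H
  obtain ⟨K, hK⟩ := hψk (G - (X ^ ℓ - C f) * H') (by
    rw [map_sub, map_mul, hψF, hH, sub_self])
  rw [Ideal.mem_span_singleton]
  refine ⟨AdjoinRoot.mk _ K, ?_⟩
  have e : G = (X ^ ℓ - C f) * H' + C p * K := by linear_combination hK
  conv_lhs => rw [e, map_add, map_mul, AdjoinRoot.mk_self, zero_mul, zero_add, map_mul]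
  rfl

end good

/-- The classification of the primes. -/
theorem max_aux {ℓ : ℕ} {E : Type u} [Field E] {ζ : E} {f : E[X]} (hg : Good ℓ ζ f)
    [IsDomain (CR ℓ f)]
    (P : Ideal (CR ℓ f)) (hP : P.IsPrime) (h0 : P ≠ ⊥) : ∃ p : E[X], Irreducible p ∧ p.Monic ∧
    ((¬ p ∣ f ∧ P = Ideal.span {xp ℓ f p}) ∨
     (¬ p ∣ f ∧ ∃ c : E[X], p ∣ f - c ^ ℓ ∧ P = Ideal.span {xp ℓ f p, yy ℓ f - xp ℓ f c} ∧
        ∏ i ∈ Finset.range ℓ, P.map (hg.tw ^ i) = Ideal.span {xp ℓ f p}) ∨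
     (p ∣ f ∧ P = Ideal.span {xp ℓ f p, yy ℓ f} ∧ P ^ ℓ = Ideal.span {xp ℓ f p})) := by
  obtain ⟨p, hpi, hpm, hp⟩ := exists_under hg.prime.ne_zero P hP h0
  refine ⟨p, hpi, hpm, ?_⟩
  by_cases hpf : p ∣ f
  · exact Or.inr (Or.inr ⟨hpf, case_C hg hpi hpf P hP hp⟩)
  · by_cases hc : ∃ c : E[X], p ∣ f - c ^ ℓ
    · obtain ⟨c, hc⟩ := hc
      exact Or.inr (Or.inl ⟨hpf, case_B hg hpi hpf P hP hp hc⟩)
    · push Not at hc
      exact Or.inl ⟨hpf, case_A hg hpi P hP hp hc⟩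

/-- The classification of the primes. -/
theorem stMax (h : StRing) (h' : StNorm) : StMax := by
  intro ℓ E _ ζ f hg P hP h0
  haveI := h ℓ E ζ f hg
  exact max_aux hg P hP h0

theorem LP_one {ℓ : ℕ} {E : Type u} [Field E] {f : E[X]} : LP ℓ f 1 :=
  ⟨1, 0, isCoprime_one_left, by simp, by simp⟩

theorem LP_mul {ℓ : ℕ} {E : Type u} [Field E] {f g g' : E[X]} (h : LP ℓ f g) (h' : LP ℓ f g') :
    LP ℓ f (g * g') := by
  obtain ⟨r, s, hr, hs, hgs⟩ := h
  obtain ⟨r', s', hr', hs', hgs'⟩ := h'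
  refine ⟨r * r', s + s', hr.mul_left hr', ?_, ?_⟩
  · intro p hp
    rcases Multiset.mem_add.1 hp with hp | hp
    · exact hs p hp
    · exact hs' p hp
  · rw [hgs, hgs', Multiset.prod_add]
    ring

theorem nmI_aux {ℓ : ℕ} {E : Type u} [Field E] {ζ : E} {f : E[X]} (hg : Good ℓ ζ f)
    [IsDedekindDomain (CR ℓ f)] (I : Ideal (CR ℓ f)) (hI : I ≠ ⊥) :
    (∃ g : E[X], g.Monic ∧ ∏ i ∈ Finset.range ℓ, I.map (hg.tw ^ i) = Ideal.span {xp ℓ f g}) ∧
    (I ⊔ Ideal.span {yy ℓ f} = ⊤ →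
      ∃ g : E[X], LP ℓ f g ∧ ∏ i ∈ Finset.range ℓ, I.map (hg.tw ^ i) = Ideal.span {xp ℓ f g}) := by
  revert hI
  induction I using UniqueFactorizationMonoid.induction_on_prime with
  | h₁ => intro h; exact absurd rfl h
  | h₂ I hI =>
    intro _
    rw [Ideal.isUnit_iff] at hI
    have e : ∏ i ∈ Finset.range ℓ, I.map (hg.tw ^ i) = Ideal.span {xp ℓ f 1} := by
      rw [xp_one, Ideal.span_singleton_one]
      apply Eq.trans (Finset.prod_congr rfl (fun i _ => ?_ : ∀ i ∈ Finset.range ℓ,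
        I.map (hg.tw ^ i) = 1))
      · rw [Finset.prod_const_one, Ideal.one_eq_top]
      · rw [hI, Ideal.map_top, Ideal.one_eq_top]
    exact ⟨⟨1, monic_one, e⟩, fun _ => ⟨1, LP_one, e⟩⟩
  | h₃ I P hI hP ih =>
    intro _
    obtain ⟨⟨g1, hg1, hg1'⟩, hI2⟩ := ih hI
    have hmul : ∏ i ∈ Finset.range ℓ, (P * I).map (hg.tw ^ i) =
        (∏ i ∈ Finset.range ℓ, P.map (hg.tw ^ i)) * ∏ i ∈ Finset.range ℓ, I.map (hg.tw ^ i) := by
      rw [← Finset.prod_mul_distrib]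
      apply Finset.prod_congr rfl
      intro i _
      exact Ideal.map_mul _ _ _
    have hPp : P.IsPrime := Ideal.isPrime_of_prime hP
    have hP0 : P ≠ ⊥ := hP.ne_zero
    have key : (∃ g : E[X], g.Monic ∧
        ∏ i ∈ Finset.range ℓ, P.map (hg.tw ^ i) = Ideal.span {xp ℓ f g}) ∧
      (P ⊔ Ideal.span {yy ℓ f} = ⊤ →
      ∃ g : E[X], LP ℓ f g ∧ ∏ i ∈ Finset.range ℓ, P.map (hg.tw ^ i) = Ideal.span {xp ℓ f g}) := by
      obtain ⟨p, hpi, hpm, hA | hB | hC⟩ := max_aux hg P hPp hP0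
      · obtain ⟨hpf, hPe⟩ := hA
        have e : ∏ i ∈ Finset.range ℓ, P.map (hg.tw ^ i) = Ideal.span {xp ℓ f (p ^ ℓ)} := by
          rw [hPe, xp_pow, ← Ideal.span_singleton_pow]
          apply Eq.trans (Finset.prod_congr rfl (fun i _ => ?_ : ∀ i ∈ Finset.range ℓ,
            (Ideal.span {xp ℓ f p}).map (hg.tw ^ i) = Ideal.span {xp ℓ f p}))
          · rw [Finset.prod_const, Finset.card_range]
          · rw [Ideal.map_span, Set.image_singleton, map_tw_pow_xp]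
        refine ⟨⟨_, hpm.pow ℓ, e⟩, fun _ => ⟨_, ⟨p, 0, (hpi.coprime_iff_not_dvd).2 hpf, by simp,
          by simp⟩, e⟩⟩
      · obtain ⟨hpf, c, hc, hPe, hPn⟩ := hB
        refine ⟨⟨p, hpm, hPn⟩, fun _ => ⟨p, ⟨1, {p}, isCoprime_one_left, ?_, by simp⟩, hPn⟩⟩
        intro q hq
        rw [Multiset.mem_singleton] at hq
        subst hq
        exact ⟨hpm, hpi, hpf, c, hc⟩
      · obtain ⟨hpf, hPe, hPn⟩ := hC
        have e : ∏ i ∈ Finset.range ℓ, P.map (hg.tw ^ i) = Ideal.span {xp ℓ f p} := by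
          rw [← hPn]
          apply Eq.trans (Finset.prod_congr rfl (fun i _ => ?_ : ∀ i ∈ Finset.range ℓ,
            P.map (hg.tw ^ i) = P))
          · rw [Finset.prod_const, Finset.card_range]
          · rw [hPe, Ideal.map_span, Set.image_pair, map_tw_pow_xp, map_tw_pow_yy,
              Ideal.span_insert, Ideal.span_insert,
              Ideal.span_singleton_mul_left_unit (xp_isUnit_C
                (pow_ne_zero i (hg.root.ne_zero hg.prime.ne_zero)))]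
        refine ⟨⟨p, hpm, e⟩, fun h => ?_⟩
        exfalso
        apply hPp.ne_top
        rw [← h, left_eq_sup, Ideal.span_singleton_le_iff_mem, hPe]
        exact Ideal.subset_span (by simp)
    obtain ⟨⟨g2, hg2, hg2'⟩, hP2⟩ := key
    refine ⟨⟨g2 * g1, hg2.mul hg1, ?_⟩, ?_⟩
    · rw [hmul, hg1', hg2', Ideal.span_singleton_mul_span_singleton, xp_mul]
    · intro hsup
      have s1 : P ⊔ Ideal.span {yy ℓ f} = ⊤ := by
        rw [eq_top_iff, ← hsup]
        exact sup_le_sup_right Ideal.mul_le_left _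
      have s2 : I ⊔ Ideal.span {yy ℓ f} = ⊤ := by
        rw [eq_top_iff, ← hsup]
        exact sup_le_sup_right Ideal.mul_le_right _
      obtain ⟨g3, hg3, hg3'⟩ := hP2 s1
      obtain ⟨g4, hg4, hg4'⟩ := hI2 s2
      refine ⟨g3 * g4, LP_mul hg3 hg4, ?_⟩
      rw [hmul, hg3', hg4', Ideal.span_singleton_mul_span_singleton, xp_mul]

/-- The product of the twists of an ideal. -/
theorem stNmI (h : StRing) (h' : StNorm) : StNmI := by
  intro ℓ E _ ζ f hg I hI
  haveI := h ℓ E ζ f hg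
  exact nmI_aux hg I hI

end Pool.Agent.Y317.SE
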