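import Pool.Agent.Y160.SE.Stmts

/-!
# Superelliptic curves: the residue fields of `k'(t)` for a separably closed field `k'`
-/

set_option autoImplicit false
set_option linter.all false

open Polynomial IsDedekindDomain WithZero Filter Topology
open scoped nonZeroDivisors

namespace Pool.Agent.Y317.SE

open Pool.Agent.Y160.SE

section density

variable {A F : Type*} [CommRing A] [IsDedekindDomain A] [Field F] [Algebra A F]
  [IsFractionRing A F] (v : HeightOneSpectrum A)

/-- The elements of `A` are dense in the integers of the completion (modulo the maximal ideal). -/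
theorem res_approx (x : v.adicCompletion F) (hx : Valued.v x ≤ 1) :
    ∃ p : A, Valued.v (x - algebraMap F (v.adicCompletion F) (algebraMap A F p)) ≤
      exp (-2 : ℤ) := by
  have vx : ∀ x : F, Valued.v (algebraMap F (v.adicCompletion F) x) = v.valuation F x :=
    fun x => HeightOneSpectrum.valuedAdicCompletion_eq_valuation' v x
  obtain ⟨π, hπ⟩ := v.valuation_exists_uniformizer F
  have hπ0 : π ≠ 0 := by
    rintro rfl
    rw [map_zero] at hπ
    exact exp_ne_zero hπ.symm
  have hπ2 : v.valuation F (π ^ 2) = exp (-2 : ℤ) := by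
    rw [map_pow, hπ, ← exp_nsmul]
    rfl
  have hne : (Valued.v (R := v.adicCompletion F)).restrict
      (algebraMap F (v.adicCompletion F) (π ^ 2)) ≠ 0 := by
    rw [Valuation.ne_zero_iff, _root_.map_ne_zero]
    exact pow_ne_zero 2 hπ0
  have hU1 : {z : v.adicCompletion F | Valued.v z < exp (-2 : ℤ)} ∈ 𝓝 (0 : v.adicCompletion F) := by
    rw [Valued.mem_nhds_zero]
    refine ⟨Units.mk0 _ hne, fun z hz => ?_⟩
    have h1 := (Valuation.restrict_lt_iff _).1 hz
    rw [vx, hπ2] at h1
    exact h1
  have ht : Tendsto (fun z : v.adicCompletion F => x - z) (𝓝 x) (𝓝 0) := by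
    have h5 : Tendsto (fun z : v.adicCompletion F => x - z) (𝓝 x) (𝓝 (x - x)) :=
      tendsto_const_nhds.sub tendsto_id
    rwa [sub_self] at h5
  obtain ⟨z, hz, y, rfl⟩ := mem_closure_iff_nhds.1
    (HeightOneSpectrum.denseRange_algebraMap F v x) _ (ht hU1)
  have hz' : Valued.v (x - algebraMap F (v.adicCompletion F) y) < exp (-2 : ℤ) := hz
  have hy1 : v.valuation F y ≤ 1 := by
    rw [← vx]
    have e : algebraMap F (v.adicCompletion F) y = x - (x - algebraMap F (v.adicCompletion F) y) := by
      ring
    rw [e]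
    refine (Valuation.map_sub _ _ _).trans (max_le hx (hz'.le.trans ?_))
    rw [← exp_zero, exp_le_exp]
    norm_num
  obtain ⟨p, hp⟩ := v.exists_valuation_sub_lt_of_integer hy1 (Units.mk0 (exp (-2 : ℤ)) exp_ne_zero)
  refine ⟨p, ?_⟩
  have e : x - algebraMap F (v.adicCompletion F) (algebraMap A F p) =
      (x - algebraMap F (v.adicCompletion F) y) -
        algebraMap F (v.adicCompletion F) (algebraMap A F p - y) := by
    rw [map_sub]; ring
  rw [e]
  refine (Valuation.map_sub _ _ _).trans (max_le hz'.le ?_)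
  rw [vx]
  exact hp.le

/-- The reduction map from `A` to the residue field of the completion is surjective. -/
theorem residue_surj : Function.Surjective
    ((IsLocalRing.residue (v.adicCompletionIntegers F)).comp
      (algebraMap A (v.adicCompletionIntegers F))) := by
  intro y
  obtain ⟨x, rfl⟩ := IsLocalRing.residue_surjective y
  obtain ⟨p, hp⟩ := res_approx v (x : v.adicCompletion F) x.2
  refine ⟨p, ?_⟩
  rw [RingHom.comp_apply, eq_comm, ← sub_eq_zero, ← map_sub, IsLocalRing.residue_eq_zero_iff]
  refine (Valuation.mem_maximalIdeal_iff _ _).2 ?_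
  refine lt_of_le_of_lt hp ?_
  rw [← exp_zero, exp_lt_exp]
  norm_num

/-- The kernel of the reduction map is nonzero. -/
theorem residue_ker : ∃ p : A, p ≠ 0 ∧
    IsLocalRing.residue (v.adicCompletionIntegers F)
      (algebraMap A (v.adicCompletionIntegers F) p) = 0 := by
  obtain ⟨p, hp, hp0⟩ := Submodule.exists_mem_ne_zero_of_ne_bot v.ne_bot
  refine ⟨p, hp0, ?_⟩
  rw [IsLocalRing.residue_eq_zero_iff]
  refine (Valuation.mem_maximalIdeal_iff _ _).2 ?_
  have e : Valued.v (algebraMap F (v.adicCompletion F) (algebraMap A F p)) =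
      v.valuation F (algebraMap A F p) :=
    HeightOneSpectrum.valuedAdicCompletion_eq_valuation' v _
  refine lt_of_eq_of_lt e ?_
  rw [HeightOneSpectrum.valuation_lt_one_iff_mem]
  exact hp

end density

/-- An irreducible polynomial over a separably closed field has degree prime to `ℓ`. -/
theorem coprime_of_sepClosed {κ : Type*} [Field κ] [IsSepClosed κ] {ℓ : ℕ} (hℓ : ℓ.Prime)
    (h : (ℓ : κ) ≠ 0) {a : κ[X]} (ha : Irreducible a) : ℓ.Coprime a.natDegree := by
  obtain ⟨q, hq⟩ := ExpChar.exists κ
  obtain ⟨g, hg, m, rfl⟩ := ha.hasSeparableContraction q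
  have hq0 : 0 < q := expChar_pos κ q
  have hgi : Irreducible g := of_irreducible_expand (pow_pos hq0 m).ne' ha
  have hgd : g.natDegree = 1 :=
    natDegree_eq_of_degree_eq_some (IsSepClosed.degree_eq_one_of_irreducible κ hgi hg)
  rw [natDegree_expand, hgd, one_mul]
  apply Nat.Coprime.pow_right
  cases hq with
  | zero => exact Nat.coprime_one_right ℓ
  | prime hq =>
    rw [Nat.coprime_primes hℓ hq]
    rintro rfl
    exact h (CharP.cast_eq_zero κ ℓ)

/-- The residue fields of `k'(t)`. -/
theorem stRes : StRes := by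
  intro k' F _ _ _ _ _ v ℓ hℓ h a ha
  obtain ⟨φ, hφ⟩ : ∃ φ : k'[X] →+* IsLocalRing.ResidueField (v.adicCompletionIntegers F),
    φ = (IsLocalRing.residue (v.adicCompletionIntegers F)).comp
      (algebraMap k'[X] (v.adicCompletionIntegers F)) := ⟨_, rfl⟩
  have hs : Function.Surjective φ := by rw [hφ]; exact residue_surj v
  obtain ⟨p, hp0, hp⟩ : ∃ p : k'[X], p ≠ 0 ∧ φ p = 0 := by rw [hφ]; exact residue_ker v
  letI : Algebra k' (IsLocalRing.ResidueField (v.adicCompletionIntegers F)) :=
    (φ.comp C).toAlgebra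
  have hae : ∀ q : k'[X], φ q = aeval (φ X) q := by
    intro q
    have : φ = (aeval (φ X) : k'[X] →ₐ[k'] _).toRingHom := by
      apply Polynomial.ringHom_ext
      · intro c
        show φ (C c) = aeval (φ X) (C c)
        rw [aeval_C]
        rfl
      · show φ X = aeval (φ X) X
        rw [aeval_X]
    exact congrArg (fun g : k'[X] →+* _ => g q) this
  have halgX : IsAlgebraic k' (φ X) := ⟨p, hp0, by rw [← hae]; exact hp⟩
  haveI : Algebra.IsAlgebraic k' (IsLocalRing.ResidueField (v.adicCompletionIntegers F)) := by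
    refine ⟨fun x => ?_⟩
    obtain ⟨q, rfl⟩ := hs x
    rw [hae]
    have h1 : aeval (φ X) q ∈ integralClosure k' _ :=
      adjoin_le_integralClosure halgX.isIntegral (aeval_mem_adjoin_singleton _ _)
    exact IsIntegral.isAlgebraic h1
  haveI : IsSepClosed (IsLocalRing.ResidueField (v.adicCompletionIntegers F)) :=
    Algebra.IsAlgebraic.isSepClosed (F := k')
  refine coprime_of_sepClosed hℓ ?_ ha
  have e : ((ℓ : ℕ) : IsLocalRing.ResidueField (v.adicCompletionIntegers F)) =
      algebraMap k' _ (ℓ : k') := by rw [map_natCast]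
  rw [e]
  exact (map_ne_zero_iff _ (algebraMap k' _).injective).2 h

end Pool.Agent.Y317.SE
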